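import Pool.Agent.N352.PJ.Loc
import Pool.Agent.N352.PP.Loc

/-!
# The extension of the valuation of the completion to the algebraic closure

Project PJ (helper352); this file by helper787.
-/

set_option autoImplicit false
set_option linter.all false

open Polynomial IsDedekindDomain WithZero Filter Topology
open scoped Classical NNReal

namespace Pool.Agent.N787.PJ

open Pool.Agent.N352.PJ Pool.Agent.N352.PP

section gen

variable (E : Type) [Field E] [Valued E (WithZero (Multiplicative ℤ))]

/-- The map of the value group to the real numbers. -/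
noncomputable def hm : WithZero (Multiplicative ℤ) →*₀ ℝ≥0 :=
  WithZeroMulInt.toNNReal (e := 2) two_ne_zero

theorem hm_mono : StrictMono hm := WithZeroMulInt.toNNReal_strictMono (e := 2) one_lt_two

theorem hm_exp (n : ℤ) : hm (exp (-n)) = (2⁻¹ : ℝ≥0) ^ n := by
  unfold hm
  rw [WithZeroMulInt.toNNReal_neg_apply _ (exp_ne_zero)]
  have : (unzero (exp_ne_zero (a := -n))).toAdd = -n := by
    rfl
  rw [this, zpow_neg, inv_zpow]

/-- The rank one structure. -/
@[instance_reducible]
noncomputable def rk (h : ∃ x : E, x ≠ 0 ∧
    (Valued.v (R := E) (Γ₀ := WithZero (Multiplicative ℤ))) x ≠ 1) :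
    Valuation.RankOne (Valued.v (R := E) (Γ₀ := WithZero (Multiplicative ℤ))) where
  hom' := hm.comp MonoidWithZeroHom.ValueGroup₀.embedding
  strictMono' := hm_mono.comp MonoidWithZeroHom.ValueGroup₀.embedding_strictMono
  exists_val_nontrivial := by
    obtain ⟨x, h0, h1⟩ := h
    exact ⟨x, (Valuation.ne_zero_iff _).2 h0, h1⟩

/-- The extension of the valuation of a complete field to its algebraic closure. -/
theorem ext_val [CompleteSpace E] (h : ∃ x : E, x ≠ 0 ∧
    (Valued.v (R := E) (Γ₀ := WithZero (Multiplicative ℤ))) x ≠ 1) :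
    ∃ w : Valuation (AlgebraicClosure E) NNReal,
      (∀ x : E, w (algebraMap E (AlgebraicClosure E) x) =
        hm (Valued.v (R := E) (Γ₀ := WithZero (Multiplicative ℤ)) x)) ∧
      ∀ (σ : AlgebraicClosure E ≃ₐ[E] AlgebraicClosure E) (x : AlgebraicClosure E),
        w (σ x) = w x := by
  letI rk0 : Valuation.RankOne (Valued.v (R := E) (Γ₀ := WithZero (Multiplicative ℤ))) := rk E h
  letI nf : NontriviallyNormedField E :=
    Valued.toNontriviallyNormedField (L := E) (Γ₀ := WithZero (Multiplicative ℤ))
  haveI : IsUltrametricDist E := by infer_instance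
  haveI : CompleteSpace E := by infer_instance
  let w : Valuation (AlgebraicClosure E) NNReal :=
    { toFun := fun x => ⟨spectralNorm E (AlgebraicClosure E) x, spectralNorm_nonneg x⟩
      map_zero' := by
        apply NNReal.eq
        exact spectralNorm_zero
      map_one' := by
        apply NNReal.eq
        exact spectralNorm_one
      map_mul' := fun x y => by
        apply NNReal.eq
        exact spectralAlgNorm_mul x y
      map_add_le_max' := fun x y => by
        have h1 : spectralNorm E (AlgebraicClosure E) (x + y) ≤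
          max (spectralNorm E (AlgebraicClosure E) x) (spectralNorm E (AlgebraicClosure E) y) :=
          isNonarchimedean_spectralNorm x y
        rcases le_max_iff.1 h1 with h2 | h2
        · exact le_max_of_le_left h2
        · exact le_max_of_le_right h2 }
  refine ⟨w, fun x => ?_, fun σ x => ?_⟩
  · apply NNReal.eq
    change spectralNorm E (AlgebraicClosure E) (algebraMap E (AlgebraicClosure E) x) = _
    rw [spectralNorm_extends]
    change ((hm (MonoidWithZeroHom.ValueGroup₀.embedding
      ((Valued.v (R := E) (Γ₀ := WithZero (Multiplicative ℤ))).restrict x)) : ℝ≥0) : ℝ) = _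
    rw [Valuation.embedding_restrict]
  · apply NNReal.eq
    exact (spectralNorm_eq_of_equiv σ x).symm

end gen

theorem ext : S_EXT := by
  intro R F _ _ _ _ _ v h2
  have hv2 : vv v (2 : v.adicCompletion F) = 1 := by
    have := vv_coe (F := F) v 2
    rw [h2, map_ofNat] at this
    exact this
  have hnt : ∃ x : v.adicCompletion F, x ≠ 0 ∧
      (Valued.v (R := v.adicCompletion F) (Γ₀ := WithZero (Multiplicative ℤ))) x ≠ 1 := by
    obtain ⟨π, hπ⟩ := v.valuation_exists_uniformizer F
    refine ⟨algebraMap F _ π, ?_, ?_⟩
    · intro h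
      have := vv_coe (F := F) v π
      rw [h, map_zero, hπ] at this
      exact exp_ne_zero this.symm
    · have := vv_coe (F := F) v π
      rw [hπ] at this
      change vv v _ ≠ 1
      rw [this]
      intro h
      rw [← exp_zero, exp_inj] at h
      omega
  obtain ⟨w, hw, hσ⟩ := ext_val (v.adicCompletion F) hnt
  have key : ∀ (x : v.adicCompletion F) (n : ℤ),
      Valued.v (Γ₀ := WithZero (Multiplicative ℤ)) x = exp (-n) →
        w (algebraMap (v.adicCompletion F) (AlgebraicClosure (v.adicCompletion F)) x) =
          (2⁻¹ : ℝ≥0) ^ n := by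
    intro x n hx
    rw [hw, hx, hm_exp]
  refine ⟨w, 2⁻¹, ⟨by positivity, ?_, ?_, hσ, ?_, ?_⟩, key⟩
  · rw [← NNReal.coe_lt_coe]; norm_num
  · intro x hx
    have hx' : Valued.v (Γ₀ := WithZero (Multiplicative ℤ)) x ≠ 0 :=
      (Valuation.ne_zero_iff _).2 hx
    refine ⟨- log (Valued.v (Γ₀ := WithZero (Multiplicative ℤ)) x), key x _ ?_⟩
    rw [neg_neg, exp_log hx']
  · have := hw 2
    rw [map_ofNat] at this
    rw [this]
    change hm (vv v 2) = 1
    rw [hv2, map_one]
  · intro x hx
    have h3 : vv v (x - 1) < 1 := by
      have h4 : algebraMap (v.adicCompletion F) (AlgebraicClosure (v.adicCompletion F)) x - 1 =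
          algebraMap (v.adicCompletion F) (AlgebraicClosure (v.adicCompletion F)) (x - 1) := by
        rw [map_sub, map_one]
      rw [h4, hw, ← map_one hm, hm_mono.lt_iff_lt] at hx
      exact hx
    obtain ⟨z, hz, -⟩ := sqrt_one v h2 x h3
    exact ⟨z, by rw [← hz, sq]⟩

end Pool.Agent.N787.PJ
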