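import Pool.Agent.N352.PJ.Loc
import Pool.Agent.N704.PP.Loc

/-!
# The map between the completions

Project PJ (helper352); this file by helper787.
-/

set_option autoImplicit false
set_option linter.all false

open Polynomial IsDedekindDomain

namespace Pool.Agent.N787.PJ

theorem cpl : Pool.Agent.N352.PJ.S_CPL := by
  intro k K L O _ _ _ _ _ _ _ _ _ _ _ _ _ _ P v 𝔓 hP hv h𝔓
  exact Pool.Agent.N704.PP.cmap (K := K) (L := L) hP hv h𝔓

end Pool.Agent.N787.PJ
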